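import Pool.Agent.H.MP_174134_gt.Main

namespace Pool.Agent.Results.MP_174134_gt.No

theorem result (y₀ : EuclideanSpace ℝ (Fin 4))
    (b : OrthonormalBasis (Fin 4) ℝ (EuclideanSpace ℝ (Fin 4))) (c : Fin 4 → ℝ)
    (hc : ∀ i, 0 < c i) :
    ∃ a₀ : ℝ, 0 < a₀ ∧ ∀ a : ℝ, 0 < a → a ≤ a₀ →
      ¬ ∃ f : ℝ × ℝ → EuclideanSpace ℝ (Fin 4),
        ContDiff ℝ ((⊤ : ℕ∞) : WithTop ℕ∞) f ∧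
        (∀ t v : ℝ, f (-t, v + a) = f (t, v)) ∧
        (∀ p e : ℝ × ℝ, ‖fderiv ℝ f p e‖ ^ 2 = e.1 ^ 2 + e.2 ^ 2) ∧
        ∀ p : ℝ × ℝ, ∑ i, (inner ℝ (b i) (f p - y₀)) ^ 2 / c i ^ 2 = 1 := by
  obtain ⟨a₀, h0, h⟩ := Pool.Agent.H.MP_174134_gt.final y₀ b c hc
  exact ⟨a₀, h0, fun a ha ha' ⟨f, hf, hg, hi, hE⟩ => h a ha ha' f hf hi hg hE⟩

end Pool.Agent.Results.MP_174134_gt.No
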